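import Pool.Agent.H75.HIT.INC

/-!
# Hilbert irreducibility and Zariski dense orbits: row PRM

The ideal of an orbit is prime.
-/

set_option autoImplicit false

open MvPolynomial
open Pool.Agent.H12.ZD (pmap v O Res DenseOrbit NoInv)
open Pool.Agent.H18.HIT

namespace Pool.Agent.H75.HIT

theorem pf_PRM (hINA : T_INA) (hINC : T_INC) : T_PRM := by
  intro N p H z hp
  refine ⟨fun h => ?_, ?_⟩
  · have h1 : (1 : Po N Qb) ∈ van (flQ p H) (cO z) := by
      rw [h]
      exact Submodule.mem_top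
    exact one_notMem_van _ _ h1
  intro c c' hcc
  by_cases hc : c ∈ van (flQ p H) (cO z)
  · exact Or.inl hc
  refine Or.inr ?_
  rw [mem_van] at hc
  obtain ⟨m, hm⟩ := not_forall.1 hc
  rw [flQ_iterate] at hm
  -- the tail of the orbit
  have htail : c' ∈ van (flQ p H) (cO ((pmap (fl p H))^[m] z)) := by
    refine hINC N p H ((pmap (fl p H))^[m] z) c c' hp ?_ hm
    rw [mem_van]
    intro n
    rw [flQ_iterate, ← Function.iterate_add_apply]
    have h1 := mem_van.1 hcc (n + m)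
    rw [flQ_iterate] at h1
    exact h1
  obtain ⟨b, hb, c₀, hc₀⟩ := Pool.Agent.H12.ZD.exists_scale p c'
  -- the scaled polynomial vanishes on the tail
  have h0 : ∀ n, m ≤ n → ((eval ((pmap (fl p H))^[n] z) c₀ : O p) : Qb) = 0 := by
    intro n hn
    have h1 := mem_van.1 htail (n - m)
    rw [flQ_iterate, ← Function.iterate_add_apply, Nat.sub_add_cancel hn] at h1
    rw [eval_scale hc₀, h1, mul_zero]
  rw [mem_van]
  intro i
  rw [flQ_iterate]
  have hle : ∀ j, m ≤ j → v p ((eval ((pmap (fl p H))^[i] z) c₀ : O p) : Qb) ≤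
      v p ((p : ℕ) : Qb) ^ j := by
    intro j hj
    have h1 := hINA N p H c₀ ((pmap (fl p H))^[i] z) ((p : ℕ) ^ j) hp
    rw [← Function.iterate_add_apply, h0 _ (le_trans (le_trans hj (Nat.lt_pow_self p.2.one_lt).le)
      (Nat.le_add_right _ _)), zero_sub, Pool.Agent.H12.ZD.v_neg, Nat.cast_pow,
      Pool.Agent.H12.ZD.v_pow] at h1
    exact h1
  have hz : ((eval ((pmap (fl p H))^[i] z) c₀ : O p) : Qb) = 0 := by
    by_contra hne
    obtain ⟨j, hj⟩ := exists_pow_lt_of_lt_one ((Pool.Agent.H12.ZD.v_pos p).2 hne)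
      (Pool.Agent.H12.ZD.v_self_lt p)
    have h1 := hle (max j m) (le_max_right _ _)
    have h2 : v p ((p : ℕ) : Qb) ^ (max j m) ≤ v p ((p : ℕ) : Qb) ^ j :=
      pow_le_pow_of_le_one (Pool.Agent.H12.ZD.v_nonneg p _)
        (Pool.Agent.H12.ZD.v_self_lt p).le (le_max_left _ _)
    linarith
  rw [eval_scale hc₀] at hz
  exact (mul_eq_zero.1 hz).resolve_left hb

end Pool.Agent.H75.HIT
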